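import Mathlib

namespace Pool.Agent.Results.MP_4e92f2_gt.NotMinimalUS

open Set Filter Topology

/-- The three collapsed points of the extended line. -/
def A : Set EReal := {⊥, 0, ⊤}

/-- The equivalence relation on the extended line collapsing `A` to one point. -/
def collapse : Setoid EReal where
  r x y := x = y ∨ (x ∈ A ∧ y ∈ A)
  iseqv :=
    { refl := fun _ => Or.inl rfl
      symm := fun {x y} h => by
        rcases h with h | ⟨h1, h2⟩
        · exact Or.inl h.symm
        · exact Or.inr ⟨h2, h1⟩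
      trans := fun {x y z} h h' => by
        rcases h with rfl | ⟨h1, h2⟩
        · exact h'
        · rcases h' with rfl | ⟨h3, h4⟩
          · exact Or.inr ⟨h1, h2⟩
          · exact Or.inr ⟨h1, h4⟩ }

/-- The set `X₀`, the extended line with the points of `A` identified. -/
def X0 : Type := Quotient collapse

/-- The projection. -/
def q : EReal → X0 := Quotient.mk collapse

/-- The point of `X₀` that is the image of `A`. -/
noncomputable def star : X0 := q 0

lemma q_surj : Function.Surjective q := Quotient.mk_surjective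

lemma q_eq_iff {x y : EReal} : q x = q y ↔ x = y ∨ (x ∈ A ∧ y ∈ A) := Quotient.eq

lemma zero_mem_A : (0 : EReal) ∈ A := by simp [A]

lemma q_eq_star_iff {x : EReal} : q x = star ↔ x ∈ A := by
  rw [star, q_eq_iff]
  constructor
  · rintro (h | h)
    · rw [h]; exact zero_mem_A
    · exact h.1
  · intro h; exact Or.inr ⟨h, zero_mem_A⟩

lemma q_eq_of_notMem {x y : EReal} (hx : x ∉ A) : q x = q y ↔ x = y := by
  rw [q_eq_iff]
  constructor
  · rintro (h | h)
    · exact h
    · exact absurd h.1 hx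
  · intro h; exact Or.inl h

/-- The topology `τ`: `U` is open iff its preimage is open, and dense whenever `∗ ∈ U`. -/
@[instance_reducible] def tau : TopologicalSpace X0 where
  IsOpen U := IsOpen (q ⁻¹' U) ∧ (star ∈ U → Dense (q ⁻¹' U))
  isOpen_univ := ⟨isOpen_univ, fun _ => dense_univ⟩
  isOpen_inter := by
    rintro U V ⟨hU, hU'⟩ ⟨hV, hV'⟩
    refine ⟨hU.inter hV, fun h => ?_⟩
    exact (hU' h.1).inter_of_isOpen_left (hV' h.2) hU
  isOpen_sUnion := by
    intro S hS
    constructor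
    · rw [preimage_sUnion]
      exact isOpen_biUnion fun U hU => (hS U hU).1
    · rintro ⟨U, hU, hs⟩
      exact ((hS U hU).2 hs).mono (preimage_mono (subset_sUnion_of_mem hU))

/-- The coarser topology. -/
@[instance_reducible] def tau' : TopologicalSpace X0 where
  IsOpen U := IsOpen (q ⁻¹' U) ∧ (star ∈ U → (q ⁻¹' U)ᶜ.Countable)
  isOpen_univ := ⟨isOpen_univ, fun _ => by simp⟩
  isOpen_inter := by
    rintro U V ⟨hU, hU'⟩ ⟨hV, hV'⟩
    refine ⟨hU.inter hV, fun h => ?_⟩
    rw [preimage_inter, compl_inter]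
    exact (hU' h.1).union (hV' h.2)
  isOpen_sUnion := by
    intro S hS
    constructor
    · rw [preimage_sUnion]
      exact isOpen_biUnion fun U hU => (hS U hU).1
    · rintro ⟨U, hU, hs⟩
      exact ((hS U hU).2 hs).mono (compl_subset_compl.mpr
        (preimage_mono (subset_sUnion_of_mem hU)))

lemma tau_isOpen_iff (U : Set X0) :
    IsOpen[tau] U ↔ IsOpen (q ⁻¹' U) ∧ (star ∈ U → Dense (q ⁻¹' U)) := Iff.rfl

lemma tau'_isOpen_iff (U : Set X0) :
    IsOpen[tau'] U ↔ IsOpen (q ⁻¹' U) ∧ (star ∈ U → (q ⁻¹' U)ᶜ.Countable) := Iff.rfl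

lemma mem_nhds_tau' {U : Set X0} {x : X0} (hU : IsOpen[tau'] U) (hx : x ∈ U) :
    U ∈ @nhds X0 tau' x := by
  letI := tau'
  exact IsOpen.mem_nhds hU hx

lemma dense_compl_of_countable {S : Set EReal} (hS : S.Countable) : Dense Sᶜ := by
  rw [← interior_eq_empty_iff_dense_compl]
  by_contra hne
  rw [← Ne, ← nonempty_iff_ne_empty] at hne
  obtain ⟨x, hx⟩ := hne
  -- an open nonempty subset of EReal contains an open interval of reals
  have hop : IsOpen (interior S) := isOpen_interior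
  have hcl : x ∈ closure (range ((↑) : ℝ → EReal)) := by
    induction x with
    | bot =>
      rw [mem_closure_iff_seq_limit]
      refine ⟨fun n : ℕ => ((-(n : ℝ) : ℝ) : EReal), fun n => ⟨_, rfl⟩, ?_⟩
      rw [EReal.tendsto_nhds_bot_iff_real]
      intro r
      obtain ⟨N, hN⟩ := exists_nat_gt (-r)
      filter_upwards [eventually_ge_atTop N] with n hn
      rw [EReal.coe_lt_coe_iff]
      have : (N : ℝ) ≤ n := by exact_mod_cast hn
      linarith
    | coe r => exact subset_closure ⟨r, rfl⟩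
    | top =>
      rw [mem_closure_iff_seq_limit]
      refine ⟨fun n : ℕ => (((n : ℝ) : ℝ) : EReal), fun n => ⟨_, rfl⟩, ?_⟩
      rw [EReal.tendsto_nhds_top_iff_real]
      intro r
      obtain ⟨N, hN⟩ := exists_nat_gt r
      filter_upwards [eventually_ge_atTop N] with n hn
      rw [EReal.coe_lt_coe_iff]
      have : (N : ℝ) ≤ n := by exact_mod_cast hn
      linarith
  obtain ⟨_, hy, ⟨r, rfl⟩⟩ := mem_closure_iff.mp hcl _ hop hx
  have hV : IsOpen (((↑) : ℝ → EReal) ⁻¹' (interior S)) := hop.preimage continuous_coe_real_ereal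
  have hc : (((↑) : ℝ → EReal) ⁻¹' (interior S)).Countable :=
    (hS.mono interior_subset).preimage EReal.coe_injective
  have := hc.measure_zero MeasureTheory.volume
  have hpos := hV.measure_pos MeasureTheory.volume ⟨r, hy⟩
  rw [this] at hpos
  exact lt_irrefl _ hpos

lemma tau'_le (U : Set X0) (hU : IsOpen[tau'] U) : IsOpen[tau] U := by
  rw [tau'_isOpen_iff] at hU
  rw [tau_isOpen_iff]
  refine ⟨hU.1, fun h => ?_⟩
  have := dense_compl_of_countable (hU.2 h)
  rwa [compl_compl] at this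

lemma isOpen_compl_of_compact_countable {K : Set EReal} (hK : IsClosed K) (hKA : ∀ x ∈ K, x ∉ A)
    (hc : K.Countable) : IsOpen[tau'] (q '' K)ᶜ := by
  have hpre : q ⁻¹' (q '' K)ᶜ = Kᶜ := by
    rw [preimage_compl, compl_inj_iff]
    ext x
    constructor
    · rintro ⟨y, hy, hxy⟩
      rw [q_eq_of_notMem (hKA y hy)] at hxy
      rwa [← hxy]
    · intro hx; exact ⟨x, hx, rfl⟩
  rw [tau'_isOpen_iff, hpre]
  exact ⟨hK.isOpen_compl, fun _ => by rwa [compl_compl]⟩

lemma closed_A : IsClosed A := by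
  unfold A
  exact (Set.Finite.isClosed (by simp))

theorem t1 : @T1Space X0 tau' := by
  refine @T1Space.mk X0 tau' ?_
  intro x
  obtain ⟨y, rfl⟩ := q_surj x
  rw [← @isOpen_compl_iff X0 {q y} tau']
  by_cases hy : y ∈ A
  · have hpre : q ⁻¹' ({q y}ᶜ) = Aᶜ := by
      ext z
      simp only [preimage_compl, mem_compl_iff, mem_preimage, mem_singleton_iff]
      rw [q_eq_star_iff.mpr hy, q_eq_star_iff]
    rw [tau'_isOpen_iff, hpre]
    refine ⟨closed_A.isOpen_compl, ?_⟩
    intro h
    exact absurd (q_eq_star_iff.mpr hy).symm h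
  · have := isOpen_compl_of_compact_countable (K := {y}) isClosed_singleton
      (by rintro x rfl; exact hy) (countable_singleton y)
    rwa [image_singleton] at this

/-- Open subsets of the extended line missing `A` give `τ'`-open sets. -/
lemma isOpen_image {V : Set EReal} (hV : IsOpen V) (hVA : ∀ x ∈ V, x ∉ A) :
    IsOpen[tau'] (q '' V) := by
  have hpre : q ⁻¹' (q '' V) = V := by
    ext x
    constructor
    · rintro ⟨y, hy, hxy⟩
      rw [q_eq_of_notMem (hVA y hy)] at hxy
      rwa [← hxy]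
    · intro hx; exact ⟨x, hx, rfl⟩
  rw [tau'_isOpen_iff, hpre]
  refine ⟨hV, ?_⟩
  rintro ⟨y, hy, h⟩
  exact absurd (q_eq_star_iff.mp h) (hVA y hy)

lemma no_limit_star (x : ℕ → X0) (a : EReal) (ha : a ∉ A)
    (h1 : Tendsto x atTop (@nhds X0 tau' (q a))) (h2 : Tendsto x atTop (@nhds X0 tau' star)) :
    False := by
  -- lift the sequence
  choose y hy using fun n => q_surj (x n)
  have hconv : Tendsto y atTop (𝓝 a) := by
    rw [tendsto_nhds]
    intro V hV haV
    have hop : IsOpen (V \ A) := hV.sdiff closed_A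
    have h3 : q '' (V \ A) ∈ @nhds X0 tau' (q a) :=
      mem_nhds_tau' (isOpen_image hop (fun x hx => hx.2)) ⟨a, ⟨haV, ha⟩, rfl⟩
    filter_upwards [h1 h3] with n hn
    obtain ⟨z, hz, hzn⟩ := hn
    rw [← hy n, q_eq_of_notMem hz.2] at hzn
    rw [mem_preimage, ← hzn]
    exact hz.1
  obtain ⟨N, hN⟩ : ∃ N, ∀ n ≥ N, y n ∉ A := by
    have : Aᶜ ∈ 𝓝 a := closed_A.isOpen_compl.mem_nhds ha
    exact eventually_atTop.mp (hconv this)
  have hconv' : Tendsto (fun n => y (n + N)) atTop (𝓝 a) := hconv.comp (tendsto_add_atTop_nat N)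
  let K : Set EReal := insert a (range fun n => y (n + N))
  have hK : IsClosed K := hconv'.isCompact_insert_range.isClosed
  have hKA : ∀ x ∈ K, x ∉ A := by
    rintro x (rfl | ⟨n, rfl⟩)
    · exact ha
    · exact hN _ (Nat.le_add_left N n)
  have hc : K.Countable := (countable_range _).insert a
  have hopen := isOpen_compl_of_compact_countable hK hKA hc
  have hmem : star ∈ (q '' K)ᶜ := by
    rintro ⟨z, hz, hzs⟩
    exact hKA z hz (q_eq_star_iff.mp hzs)
  have hnh := mem_nhds_tau' hopen hmem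
  obtain ⟨M, hM⟩ := eventually_atTop.mp (h2 hnh)
  have := hM (M + N) (Nat.le_add_right M N)
  apply this
  exact ⟨y (M + N), Or.inr ⟨M, rfl⟩, hy _⟩

theorem us (x : ℕ → X0) (a b : X0) (h1 : Tendsto x atTop (@nhds X0 tau' a))
    (h2 : Tendsto x atTop (@nhds X0 tau' b)) : a = b := by
  obtain ⟨a, rfl⟩ := q_surj a
  obtain ⟨b, rfl⟩ := q_surj b
  by_cases ha : a ∈ A
  · by_cases hb : b ∈ A
    · rw [q_eq_star_iff.mpr ha, q_eq_star_iff.mpr hb]
    · rw [q_eq_star_iff.mpr ha] at h1
      exact (no_limit_star x b hb h2 h1).elim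
  · by_cases hb : b ∈ A
    · rw [q_eq_star_iff.mpr hb] at h2
      exact (no_limit_star x a ha h1 h2).elim
    · by_contra hab
      have hab' : a ≠ b := fun h => hab (by rw [h])
      obtain ⟨U, V, hU, hV, haU, hbV, hUV⟩ := t2_separation hab'
      have hU' : q '' (U \ A) ∈ @nhds X0 tau' (q a) :=
        mem_nhds_tau' (isOpen_image (hU.sdiff closed_A) (fun x hx => hx.2)) ⟨a, ⟨haU, ha⟩, rfl⟩
      have hV' : q '' (V \ A) ∈ @nhds X0 tau' (q b) :=
        mem_nhds_tau' (isOpen_image (hV.sdiff closed_A) (fun x hx => hx.2)) ⟨b, ⟨hbV, hb⟩, rfl⟩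
      obtain ⟨n, ⟨z, hz, hzn⟩, ⟨w, hw, hwn⟩⟩ := ((h1.eventually_mem hU').and (h2.eventually_mem hV')).exists
      have : q z = q w := hzn.trans hwn.symm
      rw [q_eq_of_notMem hz.2] at this
      subst this
      exact disjoint_left.mp hUV hz.1 hw.1

lemma exists_set : ∃ U : Set X0, IsOpen[tau] U ∧ ¬ IsOpen[tau'] U := by
  have hQ : MeasureTheory.volume (range ((↑) : ℚ → ℝ)) < 1 := by
    rw [(countable_range _).measure_zero]
    exact one_pos
  obtain ⟨W, hW, hWo, hWm⟩ := (range ((↑) : ℚ → ℝ)).exists_isOpen_lt_of_lt 1 hQ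
  let C : Set ℝ := Icc 1 3 \ W
  have hCc : IsCompact C := isCompact_Icc.diff hWo
  have hCunc : ¬ C.Countable := by
    intro hc
    have h0 := hc.measure_zero MeasureTheory.volume
    have h1 : MeasureTheory.volume (Icc (1 : ℝ) 3) ≤
        MeasureTheory.volume W + MeasureTheory.volume C := by
      refine le_trans (MeasureTheory.measure_mono ?_) (MeasureTheory.measure_union_le _ _)
      intro x hx
      by_cases hxW : x ∈ W
      · exact Or.inl hxW
      · exact Or.inr ⟨hx, hxW⟩
    rw [h0, add_zero, Real.volume_Icc] at h1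
    have h2 : ENNReal.ofReal (3 - 1) < 1 := lt_of_le_of_lt h1 hWm
    norm_num at h2
  let K : Set EReal := ((↑) : ℝ → EReal) '' C
  have hK : IsClosed K := (hCc.image continuous_coe_real_ereal).isClosed
  have hKA : ∀ x ∈ K, x ∉ A := by
    rintro _ ⟨r, hr, rfl⟩ hA
    have h1 : (1 : ℝ) ≤ r := hr.1.1
    simp only [A, mem_insert_iff, EReal.coe_ne_bot, mem_singleton_iff, EReal.coe_ne_top,
      or_false, false_or, EReal.coe_eq_zero] at hA
    rw [hA] at h1
    linarith
  have hpre : q ⁻¹' (q '' K)ᶜ = Kᶜ := by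
    rw [preimage_compl, compl_inj_iff]
    ext x
    constructor
    · rintro ⟨y, hy, hxy⟩
      rw [q_eq_of_notMem (hKA y hy)] at hxy
      rwa [← hxy]
    · intro hx; exact ⟨x, hx, rfl⟩
  refine ⟨(q '' K)ᶜ, ?_, ?_⟩
  · rw [tau_isOpen_iff, hpre]
    refine ⟨hK.isOpen_compl, fun _ => ?_⟩
    rw [dense_iff_inter_open]
    rintro V hV ⟨v, hv⟩
    by_cases hvK : v ∈ K
    · obtain ⟨r, hr, rfl⟩ := hvK
      have hVo : IsOpen (((↑) : ℝ → EReal) ⁻¹' V) := hV.preimage continuous_coe_real_ereal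
      obtain ⟨s, hs, t, rfl⟩ := (Rat.denseRange_cast (𝕜 := ℝ)).exists_mem_open hVo ⟨r, hv⟩ |>.elim
        (fun t ht => (⟨(t : ℝ), ht, t, rfl⟩ : ∃ s : ℝ, s ∈ (((↑) : ℝ → EReal) ⁻¹' V) ∧
          ∃ t : ℚ, (t : ℝ) = s))
      refine ⟨((t : ℝ) : EReal), hs, ?_⟩
      rintro ⟨r', hr', hrt⟩
      have := EReal.coe_injective hrt
      rw [this] at hr'
      exact hr'.2 (hW ⟨t, rfl⟩)
    · exact ⟨v, hv, hvK⟩
  · rw [tau'_isOpen_iff, hpre]
    rintro ⟨_, h⟩
    have hstar : star ∈ (q '' K)ᶜ := by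
      rintro ⟨z, hz, hzs⟩
      exact hKA z hz (q_eq_star_iff.mp hzs)
    have h2 := h hstar
    rw [compl_compl] at h2
    apply hCunc
    have := h2.preimage EReal.coe_injective
    rwa [preimage_image_eq _ EReal.coe_injective] at this

/-- The topology `τ` on `X₀` is not minimal US: there is a strictly coarser topology which is
`T₁` and in which every sequence has at most one limit. -/
theorem result : ∃ t : TopologicalSpace X0,
    (∀ U : Set X0, IsOpen[t] U → IsOpen[tau] U) ∧
    (∃ U : Set X0, IsOpen[tau] U ∧ ¬ IsOpen[t] U) ∧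
    @T1Space X0 t ∧
    (∀ (x : ℕ → X0) (a b : X0), Tendsto x atTop (@nhds X0 t a) →
      Tendsto x atTop (@nhds X0 t b) → a = b) :=
  ⟨tau', tau'_le, exists_set, t1, us⟩

end Pool.Agent.Results.MP_4e92f2_gt.NotMinimalUS
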